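import Pool.Agent.H96.T1P.PZX

/-!
# T1P, module TAY: translations and the polynomials with `a_1 = 0`
-/

set_option autoImplicit false

namespace Pool.T1P

open Polynomial Matrix Pool.HYP Pool.TOW Pool.AVS IsDedekindDomain Pool.T1

theorem tay_coeff {R : Type} [CommRing R] (f : R[X]) (r : R) (n : ℕ) :
    (taylor r f).coeff n =
      ∑ i ∈ Finset.range (f.natDegree + 1), (i.choose n : R) * f.coeff i * r ^ (i - n) := by
  rw [taylor_coeff, hasseDeriv_apply]
  rw [f.sum_over_range (by intro n; simp)]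
  rw [eval_finsetSum]
  exact Finset.sum_congr rfl fun i _ => by rw [eval_monomial]

theorem lm_tay {R : Type} [CommRing R] {K : Type} [Field K] [Algebra R K]
    {O : ValuationSubring K} {π : K} {N h : ℕ} {f : R[X]} {r : R} (hn : f.natDegree = N)
    (hc : ∀ i ≤ N, f.coeff (N - i) ∈ Lm R O π ((i * h : ℕ) : ℤ)) (hr : r ∈ Lm R O π (h : ℤ))
    (i : ℕ) (hi : i ≤ N) : (taylor r f).coeff (N - i) ∈ Lm R O π ((i * h : ℕ) : ℤ) := by
  simp only [Lm, zpow_natCast] at hc hr ⊢
  show algebraMap R K _ * π ^ (i * h) ∈ O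
  rw [tay_coeff, map_sum, Finset.sum_mul]
  refine sum_mem fun k hk => ?_
  rw [hn, Finset.mem_range] at hk
  rcases lt_or_ge k (N - i) with hlt | hge
  · rw [Nat.choose_eq_zero_of_lt hlt]
    simp
  · obtain ⟨j, hj⟩ := Nat.exists_eq_add_of_le hge
    have h1 := hc (N - k) (Nat.sub_le _ _)
    rw [Nat.sub_sub_self (by omega)] at h1
    have h2 : (N - k) + j = i := by omega
    have h3 : k - (N - i) = j := by omega
    have h4 : algebraMap R K ((k.choose (N - i) : R) * f.coeff k * r ^ (k - (N - i))) *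
        π ^ (i * h) = ((k.choose (N - i) : ℕ) : K) *
          (algebraMap R K (f.coeff k) * π ^ ((N - k) * h)) * (algebraMap R K r * π ^ h) ^ j := by
      rw [h3, ← h2, map_mul, map_mul, map_pow, map_natCast, add_mul, pow_add, mul_pow, ← pow_mul,
        mul_comm h j]
      ring
    rw [h4]
    exact mul_mem (mul_mem (natCast_mem O _) h1) (pow_mem hr j)

theorem tay_top {R : Type} [CommRing R] {g : ℕ} {f : R[X]} (r : R) (hm : f.Monic)
    (hn : f.natDegree = 2 * g + 1) :
    (taylor r f).coeff (2 * g) = f.coeff (2 * g) + ((2 * g + 1 : ℕ) : R) * r := by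
  rw [tay_coeff, hn, Finset.sum_range_succ, Finset.sum_range_succ, Finset.sum_eq_zero]
  · have h1 : f.coeff (2 * g + 1) = 1 := by
      have := hm.coeff_natDegree
      rwa [hn] at this
    rw [h1, Nat.choose_self, Nat.choose_succ_self_right]
    simp
  · intro i hi
    rw [Finset.mem_range] at hi
    rw [Nat.choose_eq_zero_of_lt hi]
    simp

theorem sep_tay {K : Type} [Field K] (f : K[X]) (c : K) (hf : f.Separable) :
    (taylor c f).Separable := by
  rw [taylor_apply]
  have h1 : IsCoprime (f.comp (X + C c)) ((derivative f).comp (X + C c)) :=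
    IsCoprime.map hf (compRingHom (X + C c))
  have h2 : derivative (f.comp (X + C c)) = (derivative f).comp (X + C c) := by
    rw [derivative_comp]
    simp
  rw [Separable, h2]
  exact h1

theorem monic_tay {R : Type} [CommRing R] {f : R[X]} (r : R) (hm : f.Monic) :
    (taylor r f).Monic := by
  rw [Monic, leadingCoeff_taylor]
  exact hm

section Main

variable {R : Type} [CommRing R] [IsDedekindDomain R] {K : Type} [Field K] [Algebra R K]
  [IsFractionRing R K] {O : ValuationSubring K} {π : K}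

omit [IsDedekindDomain R] [IsFractionRing R K] in
theorem all_tay {g h : ℕ} {f : R[X]} {r : R} (hf : f ∈ All R O π g h)
    (hr : r ∈ Lm R O π (h : ℤ)) : taylor r f ∈ All R O π g h :=
  ⟨monic_tay r hf.1, by rw [natDegree_taylor, hf.2.1], lm_tay hf.2.1 hf.2.2 hr⟩

omit [IsDedekindDomain R] [IsFractionRing R K] in
theorem fk_tay (f : R[X]) (r : R) : fk K (taylor r f) = taylor (algebraMap R K r) (fk K f) :=
  map_taylor _ _ _

omit [IsDedekindDomain R] [IsFractionRing R K] in
theorem alls_tay {g h : ℕ} {f : R[X]} {r : R} (hf : f ∈ AllS R O π g h)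
    (hr : r ∈ Lm R O π (h : ℤ)) : taylor r f ∈ AllS R O π g h :=
  ⟨all_tay hf.1 hr, by rw [fk_tay]; exact sep_tay _ _ hf.2⟩

omit [IsDedekindDomain R] [IsFractionRing R K] in
theorem lm_neg {m : ℤ} {a : R} (ha : a ∈ Lm R O π m) : -a ∈ Lm R O π m := by
  show algebraMap R K (-a) * π ^ m ∈ O
  rw [map_neg, neg_mul]
  exact neg_mem ha

omit [IsDedekindDomain R] [IsFractionRing R K] in
theorem lm_mul {m : ℤ} {u a : R} (hu : algebraMap R K u ∈ O) (ha : a ∈ Lm R O π m) :
    u * a ∈ Lm R O π m := by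
  show algebraMap R K (u * a) * π ^ m ∈ O
  rw [map_mul, mul_assoc]
  exact mul_mem hu ha

omit [IsDedekindDomain R] [IsFractionRing R K] in
theorem irr_tay {f : R[X]} (r : R) (hi : Irreducible (fk K f)) :
    Irreducible (fk K (taylor r f)) := by
  have h2 : fk K (taylor r f) = taylorEquiv (algebraMap R K r) (fk K f) := fk_tay _ _
  rw [h2]
  exact (MulEquiv.irreducible_iff (taylorEquiv (algebraMap R K r))).2 hi

/-- The inverse of a natural number which is a unit of `R` is in `O`. -/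
theorem inv_nat (hG : GR R O π) {N : ℕ} (hN : IsUnit ((N : ℕ) : R)) :
    ∃ u : R, (N : R) * u = 1 ∧ algebraMap R K u ∈ O := by
  obtain ⟨p, hp, hcp⟩ := hG.char
  obtain ⟨u, hu⟩ := hN.exists_right_inv
  have hK : ((N : ℕ) : K) * algebraMap R K u = 1 := by
    have := congrArg (algebraMap R K) hu
    rwa [map_mul, map_natCast, map_one] at this
  have hN0 : ((N : ℕ) : K) ≠ 0 := left_ne_zero_of_mul_eq_one hK
  have hcop : N.Coprime p := by
    rw [Nat.coprime_comm, hp.coprime_iff_not_dvd]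
    intro hd
    exact hN0 ((CharP.cast_eq_zero_iff K p N).2 hd)
  obtain ⟨m, -, hm⟩ := Nat.exists_mul_mod_eq_one_of_coprime hcop hp.one_lt
  have h1 : ((N : ℕ) : K) * (m : K) = 1 := by
    rw [← Nat.cast_mul, CharP.cast_eq_mod K p, hm, Nat.cast_one]
  have h2 : algebraMap R K u = (m : K) := mul_left_cancel₀ hN0 (hK.trans h1.symm)
  refine ⟨u, hu, ?_⟩
  rw [h2]
  exact natCast_mem O m

omit [IsDedekindDomain R] [IsFractionRing R K] in
/-- The size of a set stable under translations. -/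
theorem ncard_stable {S : Set R[X]} {g h : ℕ} {u : R} (hu : ((2 * g + 1 : ℕ) : R) * u = 1)
    (hO : algebraMap R K u ∈ O)
    (hS : ∀ f ∈ S, f.Monic ∧ f.natDegree = 2 * g + 1 ∧ f.coeff (2 * g) ∈ Lm R O π (h : ℤ))
    (hst : ∀ f ∈ S, ∀ r ∈ Lm R O π (h : ℤ), taylor r f ∈ S) :
    S.ncard = {f ∈ S | f.coeff (2 * g) = 0}.ncard * (Lm R O π (h : ℤ)).ncard := by
  have him : S = (fun z : R[X] × R => taylor (u * z.2) z.1) ''
      ({f ∈ S | f.coeff (2 * g) = 0} ×ˢ Lm R O π (h : ℤ)) := by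
    ext F
    constructor
    · intro hF
      obtain ⟨hm, hn, ha⟩ := hS F hF
      have hr : -(u * F.coeff (2 * g)) ∈ Lm R O π (h : ℤ) := lm_neg (lm_mul hO ha)
      refine ⟨(taylor (-(u * F.coeff (2 * g))) F, F.coeff (2 * g)), ⟨⟨hst F hF _ hr, ?_⟩, ha⟩, ?_⟩
      · rw [tay_top _ hm hn]
        linear_combination (-F.coeff (2 * g)) * hu
      · show taylor (u * F.coeff (2 * g)) (taylor (-(u * F.coeff (2 * g))) F) = F
        rw [taylor_taylor, add_neg_cancel, taylor_zero]
    · rintro ⟨⟨f, a⟩, ⟨⟨hf, -⟩, ha⟩, rfl⟩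
      exact hst f hf _ (lm_mul hO ha)
  have hinj : Set.InjOn (fun z : R[X] × R => taylor (u * z.2) z.1)
      ({f ∈ S | f.coeff (2 * g) = 0} ×ˢ Lm R O π (h : ℤ)) := by
    rintro ⟨f, a⟩ ⟨⟨hf, hf0⟩, -⟩ ⟨f', a'⟩ ⟨⟨hf', hf0'⟩, -⟩ he
    have he' : taylor (u * a) f = taylor (u * a') f' := he
    have h1 := tay_top (u * a) (hS f hf).1 (hS f hf).2.1
    have h2 := tay_top (u * a') (hS f' hf').1 (hS f' hf').2.1
    have hf0a : f.coeff (2 * g) = 0 := hf0
    have hf0b : f'.coeff (2 * g) = 0 := hf0'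
    rw [hf0a] at h1
    rw [hf0b, ← he', h1] at h2
    have h3 : a = a' := by linear_combination h2 - (a - a') * hu
    subst h3
    exact Prod.ext (taylor_injective _ he') rfl
  conv_lhs => rw [him]
  rw [Set.InjOn.ncard_image hinj, Set.ncard_prod]

omit [IsDedekindDomain R] [IsFractionRing R K] in
theorem sr_tay (F : K[X]) (s c : K) (hF : F.Monic) :
    (taylor c F).scaleRoots s = taylor (s * c) (F.scaleRoots s) := by
  by_cases hs : s = 0
  · subst hs
    rw [zero_mul, taylor_zero, scaleRoots_zero, scaleRoots_zero]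
    · rw [leadingCoeff_taylor, natDegree_taylor]
  have h1 : ∀ G : K[X], G.scaleRoots s = C (s ^ G.natDegree) * G.comp (C s⁻¹ * X) := by
    intro G
    refine Polynomial.ext fun i => ?_
    rw [coeff_scaleRoots, coeff_C_mul, comp_C_mul_X_coeff]
    rcases le_or_gt i G.natDegree with hi | hi
    · have h2 : s ^ G.natDegree = s ^ (G.natDegree - i) * s ^ i := by
        rw [← pow_add]
        congr 1
        omega
      rw [h2, inv_pow]
      have h3 : s ^ i ≠ 0 := pow_ne_zero _ hs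
      field_simp
    · rw [coeff_eq_zero_of_natDegree_lt hi]
      simp
  rw [h1, h1, natDegree_taylor, taylor_apply, taylor_apply, mul_comp, C_comp, comp_assoc,
    comp_assoc]
  congr 2
  simp only [add_comp, mul_comp, X_comp, C_comp]
  rw [mul_add, ← C_mul, ← mul_assoc, inv_mul_cancel₀ hs, one_mul]

omit [IsDedekindDomain R] [IsFractionRing R K] in
theorem irT_tay {g h : ℕ} {f : R[X]} {r : R} (hf : f ∈ All R O π g h) (hi : IrT O π h f)
    (hr : r ∈ Lm R O π (h : ℤ)) : IrT O π h (taylor r f) := by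
  have hr' : π ^ h * algebraMap R K r ∈ O := by
    have : algebraMap R K r * π ^ (h : ℤ) ∈ O := hr
    rwa [zpow_natCast, mul_comm] at this
  obtain ⟨q, hq, hirr⟩ := hi
  refine ⟨taylor ⟨_, hr'⟩ q, ?_, ?_⟩
  · rw [map_taylor, hq, fk_tay, sr_tay _ _ _ (hf.1.map _)]
    rfl
  · have h2 : (taylor ⟨_, hr'⟩ q).map (IsLocalRing.residue O) =
        taylorEquiv (IsLocalRing.residue O ⟨_, hr'⟩) (q.map (IsLocalRing.residue O)) :=
      map_taylor _ _ _
    rw [h2]
    exact (MulEquiv.irreducible_iff (taylorEquiv (IsLocalRing.residue O ⟨_, hr'⟩))).2 hirr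

omit [IsFractionRing R K] [IsDedekindDomain R] in
theorem zer_tay {I : Ideal R} {p : R[X]} (h : Zer I p) (r : R) : Zer I (taylor r p) := by
  intro n
  rw [tay_coeff]
  exact I.sum_mem fun i _ => I.mul_mem_right _ (I.mul_mem_left _ (h i))

theorem sing_tay {P : HeightOneSpectrum R} {f : R[X]} (r : R) (h : Sing P.asIdeal f) :
    Sing P.asIdeal (taylor r f) := by
  obtain ⟨γ, a, b, c, hγ, hirr, hb, hc, heq⟩ := h
  refine ⟨taylor r γ, taylor r a, taylor r b, taylor r c, monic_tay r hγ, ?_, zer_tay hb r,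
    zer_tay hc r, ?_⟩
  · have h2 : md P.asIdeal (taylor r γ) =
        taylorEquiv (Ideal.Quotient.mk P.asIdeal r) (md P.asIdeal γ) := map_taylor _ _ _
    rw [h2]
    exact (MulEquiv.irreducible_iff (taylorEquiv (Ideal.Quotient.mk P.asIdeal r))).2 hirr
  · rw [heq]
    simp only [map_add, taylor_mul, taylor_pow]

theorem sgC_tay {A : Finset (HeightOneSpectrum R)} {f : R[X]} (h : SgC A f) (r : R) :
    SgC A (taylor r f) := by
  intro P hP
  have h1 : Sing P.asIdeal f := by
    have h2 := sing_tay (-r) hP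
    rwa [taylor_taylor, neg_add_cancel, taylor_zero] at h2
  obtain ⟨hPA, c, hc⟩ := h P h1
  refine ⟨hPA, c - r, ?_⟩
  have h3 := zer_tay hc r
  have h4 : taylor r (f - (X - C c) ^ f.natDegree) =
      taylor r f - (X - C (c - r)) ^ (taylor r f).natDegree := by
    rw [natDegree_taylor, map_sub, taylor_pow, map_sub, taylor_X, taylor_C, C_sub]
    congr 2
    ring
  rwa [h4] at h3

/-- The polynomials with `a_1 = 0`. -/
theorem posXZ (H : GR R O π) {g : ℕ} {A : Finset (HeightOneSpectrum R)} {Y : R[X] → Prop}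
    (hN : IsUnit ((2 * g + 1 : ℕ) : R)) (hLf : ∀ m : ℤ, (Lm R O π m).Finite)
    (hY : ∀ f : R[X], f.Monic → ∀ r : R, Y f → Y (taylor r f)) (hpos : PosX O π g A Y) :
    ∃ δ : ℝ, 0 < δ ∧ ∃ h0 : ℕ, ∀ h : ℕ, h0 ≤ h →
      δ * {f ∈ All R O π g h | f.coeff (2 * g) = 0}.ncard ≤
        {f ∈ {f ∈ AllS R O π g h | Irreducible (fk K f) ∧ IrT O π h f ∧ SgC A f ∧ Y f} |
          f.coeff (2 * g) = 0}.ncard := by
  obtain ⟨δ, hδ, h0, hh⟩ := hpos
  obtain ⟨u, hu, hO⟩ := inv_nat H hN
  refine ⟨δ, hδ, h0, fun h hle => ?_⟩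
  obtain ⟨-, h2⟩ := hh h hle
  have hbase : ∀ f ∈ All R O π g h,
      f.Monic ∧ f.natDegree = 2 * g + 1 ∧ f.coeff (2 * g) ∈ Lm R O π (h : ℤ) := by
    intro f hf
    refine ⟨hf.1, hf.2.1, ?_⟩
    have := hf.2.2 1 (by omega)
    rwa [Nat.add_sub_cancel, one_mul] at this
  have e1 := ncard_stable (S := All R O π g h) (h := h) (π := π) hu hO hbase
    (fun f hf r hr => all_tay hf hr)
  have e2 := ncard_stable
    (S := {f ∈ AllS R O π g h | Irreducible (fk K f) ∧ IrT O π h f ∧ SgC A f ∧ Y f}) (h := h)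
    (π := π) hu hO (fun f hf => hbase f hf.1.1)
    (fun f hf r hr => ⟨alls_tay hf.1 hr, irr_tay r hf.2.1, irT_tay hf.1.1 hf.2.2.1 hr,
      sgC_tay hf.2.2.2.1 r, hY f hf.1.1.1 r hf.2.2.2.2⟩)
  have h4 : 0 < (Lm R O π (h : ℤ)).ncard := by
    rw [Set.ncard_pos (hLf _)]
    exact ⟨0, by simp [Lm, O.zero_mem]⟩
  rw [e1, e2] at h2
  push_cast at h2
  have h5 : (0 : ℝ) < ((Lm R O π (h : ℤ)).ncard : ℝ) := by exact_mod_cast h4
  rw [← mul_assoc] at h2
  exact le_of_mul_le_mul_right h2 h5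

end Main

end Pool.T1P
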