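import Pool.Agent.H96.T1P.TAY
import Pool.Agent.H87.T1.DDK

/-!
# T1P: polynomials with coefficients in `R[s_1, ..., s_m]`: definitions and statements of the rows
-/

set_option autoImplicit false

namespace Pool.T1P

open Polynomial Matrix Pool.HYP Pool.TOW Pool.AVS IsDedekindDomain Pool.T1

/-- The ring `R[s_1, ..., s_m]`. -/
abbrev Am (R : Type) [CommRing R] (m : ℕ) : Type := MvPolynomial (Fin m) R

section Defs

variable {R : Type} [CommRing R] {m : ℕ}

/-- The polynomial at `s = 0`. -/
noncomputable abbrev at0 (f : (Am R m)[X]) : R[X] := f.map MvPolynomial.constantCoeff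

/-- The coefficient of `s_k`. -/
noncomputable def fo (k : Fin m) (a : Am R m) : R :=
  MvPolynomial.constantCoeff (MvPolynomial.pderiv k a)

/-- The first order part of `f` is `1` modulo the primes of `A`. -/
def FO (A : Finset (HeightOneSpectrum R)) (k : Fin m) (f : (Am R m)[X]) : Prop :=
  ∀ P ∈ A, ∀ n : ℕ, fo k (f.coeff n) - (if n = 0 then 1 else 0) ∈ P.asIdeal

/-- The scheme `f = 0` is regular at all points where `s = 0`. -/
def RegM (f : (Am R m)[X]) : Prop :=
  ∀ 𝔪 : Ideal (Am R m)[X], 𝔪.IsMaximal → (∀ k : Fin m, C (MvPolynomial.X k) ∈ 𝔪) → f ∉ 𝔪 ^ 2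

variable {K : Type} [Field K] [Algebra R K]

/-- The monic polynomials of degree `2 g + 1` such that the coefficient of `s^e` in `a_i` has a pole
of order at most `i h - |e|` (and with `a_1 = 0` if `q` holds). -/
def FamM (O : ValuationSubring K) (π : K) (g m h : ℕ) (q : Prop) : Set (Am R m)[X] :=
  {f | f.Monic ∧ f.natDegree = 2 * g + 1 ∧
    (∀ i ≤ 2 * g + 1, ∀ e : Fin m →₀ ℕ, (f.coeff (2 * g + 1 - i)).coeff e ∈
      Lm R O π (((i * h : ℕ) : ℤ) - (e.degree : ℤ))) ∧
    (q → f.coeff (2 * g) = 0)}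

end Defs

/-- MAX: if `f` at `s = 0` is singular only above the primes of `A` and is a power of a linear
polynomial there, and the first order part of `f` is `1` modulo these primes, then `f` is regular
above `s = 0`. -/
def MAXStmt : Prop :=
  ∀ (R : Type) [CommRing R] [IsDedekindDomain R] [IsJacobsonRing R], ¬ IsField R →
    ∀ (m : ℕ) (k : Fin m) (A : Finset (HeightOneSpectrum R)) (f : (Am R m)[X]), f.Monic →
    SgC A (at0 f) → FO A k f → RegM f

/-- CNM: the size of the families: if `G` is a set of polynomials over `R`, the number of the `f` in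
the family with `at0 f ∈ G` and, for `m ≥ 1`, with `FO A k f` for the first `k`. -/
def CNMStmt : Prop :=
  ∀ (R : Type) [CommRing R] [IsDedekindDomain R] (K : Type) [Field K] [Algebra R K]
    [IsFractionRing R K] (O : ValuationSubring K) (π : K), GR R O π → CntU R O π →
    (∃ C : ℕ, CntC R O π C) → ∀ (g m : ℕ), 1 ≤ g → ∀ A : Finset (HeightOneSpectrum R),
    ∃ δ : ℝ, 0 < δ ∧ ∃ h0 : ℕ, ∀ h : ℕ, h0 ≤ h → ∀ (q : Prop),
      (FamM (R := R) O π g m h q).Finite ∧
      ∀ (ε : ℝ) (G : Set R[X]), 0 ≤ ε →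
        G ⊆ {f ∈ All R O π g h | q → f.coeff (2 * g) = 0} →
        ε * {f ∈ All R O π g h | q → f.coeff (2 * g) = 0}.ncard ≤ G.ncard →
        δ * ε * (FamM (R := R) O π g m h q).ncard ≤
          {f ∈ FamM (R := R) O π g m h q | at0 f ∈ G ∧
            ∀ k : Fin m, (k : ℕ) = 0 → FO A k f}.ncard

end Pool.T1P
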