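import Pool.Agent.H41.T1.S5
import Pool.Agent.H94.T1.S6
import Pool.Agent.H85.T1.FAMK

/-!
# T1P, module DSX: twisting elements with the same pole order
-/

set_option autoImplicit false

namespace Pool.T1P

open Polynomial Matrix Pool.HYP Pool.TOW Pool.AVS IsDedekindDomain Pool.T1

section

variable {R : Type} [CommRing R] {K : Type} [Field K] [Algebra R K]

/-- The pole order of `a` is exactly `n`. -/
def Exa (O : ValuationSubring K) (π : K) (n : ℕ) (a : R) : Prop :=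
  a ≠ 0 ∧ algebraMap R K a * π ^ n ∈ O ∧ (algebraMap R K a * π ^ n)⁻¹ ∈ O

theorem exa_one [Nontrivial R] (O : ValuationSubring K) (π : K) : Exa O π 0 (1 : R) := by
  refine ⟨one_ne_zero, ?_, ?_⟩ <;> simp [O.one_mem]

theorem exa_mul [IsDomain R] {O : ValuationSubring K} {π : K} {n m : ℕ} {a b : R}
    (ha : Exa O π n a) (hb : Exa O π m b) : Exa O π (n + m) (a * b) := by
  have h1 : algebraMap R K (a * b) * π ^ (n + m) =
      (algebraMap R K a * π ^ n) * (algebraMap R K b * π ^ m) := by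
    rw [map_mul, pow_add]
    ring
  refine ⟨mul_ne_zero ha.1 hb.1, ?_, ?_⟩
  · rw [h1]
    exact O.mul_mem _ _ ha.2.1 hb.2.1
  · rw [h1, mul_inv]
    exact O.mul_mem _ _ ha.2.2 hb.2.2

theorem exa_pow [IsDomain R] {O : ValuationSubring K} {π : K} {n : ℕ} {a : R} (ha : Exa O π n a)
    (k : ℕ) : Exa O π (k * n) (a ^ k) := by
  induction k with
  | zero => simpa using exa_one (R := R) O π
  | succ k ih =>
    rw [pow_succ, Nat.succ_mul]
    exact exa_mul ih ha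

theorem exa_prod [IsDomain R] {ι : Type} {O : ValuationSubring K} {π : K} (n : ι → ℕ) (a : ι → R)
    (S : Finset ι) (h : ∀ i ∈ S, Exa O π (n i) (a i)) :
    Exa O π (∑ i ∈ S, n i) (∏ i ∈ S, a i) := by
  classical
  induction S using Finset.induction_on with
  | empty => simpa using exa_one (R := R) O π
  | insert i S hi ih =>
    rw [Finset.prod_insert hi, Finset.sum_insert hi]
    exact exa_mul (h i (Finset.mem_insert_self _ _))
      (ih fun j hj => h j (Finset.mem_insert_of_mem hj))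

end

/-- **DSX.** -/
theorem dsx {R : Type} [CommRing R] [IsDedekindDomain R] {K : Type} [Field K] [Algebra R K]
    [IsFractionRing R K] {O : ValuationSubring K} {π : K} (H : GR R O π) (hU : CntU R O π)
    (hX : ∃ C : ℕ, CntX R O π C) (hD : CntD R O π) (Z B₀ : Finset (HeightOneSpectrum R))
    (hBZ : Disjoint B₀ Z)
    (hB : ∀ P : HeightOneSpectrum R, P ∉ B₀ → ∃ d : R, d ∈ P.asIdeal ∧ d ∉ P.asIdeal ^ 2 ∧
      ∀ P' : HeightOneSpectrum R, P' ≠ P → d ∈ P'.asIdeal → P' ∈ B₀) :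
    ∃ B : Finset (HeightOneSpectrum R), B₀ ⊆ B ∧ Disjoint B Z ∧
      ∀ T : Finset (HeightOneSpectrum R), Disjoint T B → ∃ E : ℕ, ∀ S ⊆ T, ∃ d : R,
        Exa O π E d ∧ Twi T B S d := by
  classical
  have := H.res
  obtain ⟨C, hC⟩ := hX
  obtain ⟨I, hI⟩ : ∃ I : Ideal R, I = ∏ P ∈ Z, P.asIdeal := ⟨_, rfl⟩
  have hI0 : I ≠ ⊥ := by
    rw [hI, ← Ideal.zero_eq_bot]
    exact Finset.prod_ne_zero_iff.2 fun P _ => by
      rw [Ideal.zero_eq_bot]
      exact P.ne_bot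
  have hQ : 1 < qq O := Finite.one_lt_card
  -- elements of large order
  have hel : ∀ n : ℕ, C * Nat.card (R ⧸ I) ≤ qq O ^ n → ∃ b : R, Exa O π n b ∧ b - 1 ∈ I := by
    intro n hn
    have h1 := hC I n hI0 hn 1 1 O.one_mem
    have h2 : 0 < (Lm R O π (n : ℤ)).ncard := by
      rw [Set.ncard_pos (hU n).1]
      exact ⟨0, by simp [Lm, O.zero_mem]⟩
    have h3 : 0 < {a ∈ Lm R O π (n : ℤ) | a - 1 ∈ I ∧
        (algebraMap R K a * π ^ n - 1) / π ∈ O}.ncard := by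
      rcases Nat.eq_zero_or_pos ({a ∈ Lm R O π (n : ℤ) | a - 1 ∈ I ∧
        (algebraMap R K a * π ^ n - 1) / π ∈ O}.ncard) with h0 | h0
      · rw [h0, zero_mul, zero_mul] at h1
        omega
      · exact h0
    obtain ⟨b, hb1, hb2, hb3⟩ := Set.nonempty_of_ncard_ne_zero h3.ne'
    have hb4 : algebraMap R K b * π ^ n ∈ O := by
      have := hb1
      change algebraMap R K b * π ^ (n : ℤ) ∈ O at this
      rwa [zpow_natCast] at this
    refine ⟨b, ⟨?_, hb4, ?_⟩, hb2⟩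
    · rintro rfl
      rw [map_zero, zero_mul, zero_sub, neg_div, one_div] at hb3
      exact H.pi_inv (by simpa using O.neg_mem _ hb3)
    have h4 : IsUnit (⟨algebraMap R K b * π ^ n, hb4⟩ : O) := by
      by_contra hnu
      have h5 : (⟨algebraMap R K b * π ^ n, hb4⟩ : O) ∈ IsLocalRing.maximalIdeal O :=
        (IsLocalRing.mem_maximalIdeal _).2 hnu
      rw [FAMKaux.maxO H] at h5
      apply H.pi_inv
      have h6 : (algebraMap R K b * π ^ n) / π - (algebraMap R K b * π ^ n - 1) / π ∈ O :=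
        O.toSubring.sub_mem h5 hb3
      have h7 : (algebraMap R K b * π ^ n) / π - (algebraMap R K b * π ^ n - 1) / π = π⁻¹ := by
        rw [← sub_div, sub_sub_cancel, one_div]
      rwa [h7] at h6
    obtain ⟨v, hv⟩ := isUnit_iff_exists_inv.1 h4
    have h5 : (algebraMap R K b * π ^ n) * (v : K) = 1 := congrArg Subtype.val hv
    rw [inv_eq_of_mul_eq_one_right h5]
    exact v.2
  obtain ⟨n, hn1, hn⟩ : ∃ n : ℕ, 1 ≤ n ∧ C * Nat.card (R ⧸ I) ≤ qq O ^ n := by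
    refine ⟨C * Nat.card (R ⧸ I) + 1, by omega, ?_⟩
    exact (Nat.lt_pow_self hQ).le.trans (Nat.pow_le_pow_right (by omega) (by omega))
  obtain ⟨b₁, hb₁, hb₁I⟩ := hel n hn
  obtain ⟨b₂, hb₂, hb₂I⟩ := hel (n + 1) (hn.trans (Nat.pow_le_pow_right (by omega) (by omega)))
  have hfin : ∀ b : R, b ≠ 0 → {P : HeightOneSpectrum R | b ∈ P.asIdeal}.Finite := by
    intro b hb
    refine (Ideal.finite_factors (I := Ideal.span {b}) ?_).subset fun P hP => ?_
    · rw [Ne, Ideal.zero_eq_bot, Ideal.span_singleton_eq_bot]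
      exact hb
    · show P.asIdeal ∣ Ideal.span {b}
      rw [Ideal.dvd_span_singleton]
      exact hP
  have hnZ : ∀ b : R, b - 1 ∈ I → ∀ P ∈ Z, b ∉ P.asIdeal := by
    intro b hb P hP hbP
    have h1 : b - 1 ∈ P.asIdeal := by
      rw [hI] at hb
      exact (FAMKaux.memProd Z _).1 hb P hP
    have h2 : (1 : R) ∈ P.asIdeal := by
      have h3 := P.asIdeal.sub_mem hbP h1
      rwa [sub_sub_cancel] at h3
    exact P.isPrime.ne_top ((Ideal.eq_top_iff_one _).2 h2)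
  obtain ⟨B, hBdef⟩ : ∃ B : Finset (HeightOneSpectrum R),
    B = B₀ ∪ ((hfin b₁ hb₁.1).toFinset ∪ (hfin b₂ hb₂.1).toFinset) := ⟨_, rfl⟩
  have hB1 : ∀ P : HeightOneSpectrum R, b₁ ∈ P.asIdeal → P ∈ B := fun P hP => by
    rw [hBdef]
    simp [hP]
  have hB2 : ∀ P : HeightOneSpectrum R, b₂ ∈ P.asIdeal → P ∈ B := fun P hP => by
    rw [hBdef]
    simp [hP]
  have hB0 : B₀ ⊆ B := by
    rw [hBdef]
    exact Finset.subset_union_left
  refine ⟨B, hB0, ?_, fun T hTB => ?_⟩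
  · rw [Finset.disjoint_left]
    intro P hP hPZ
    rw [hBdef] at hP
    simp only [Finset.mem_union, Set.Finite.mem_toFinset, Set.mem_setOf_eq] at hP
    rcases hP with h1 | h1 | h1
    · exact Finset.disjoint_left.1 hBZ h1 hPZ
    · exact hnZ b₁ hb₁I P hPZ h1
    · exact hnZ b₂ hb₂I P hPZ h1
  have hTB' : ∀ P ∈ T, P ∉ B := fun P hP hPB => Finset.disjoint_left.1 hTB hP hPB
  have hd' : ∀ P : HeightOneSpectrum R, ∃ d : R, P ∈ T → (d ∈ P.asIdeal ∧ d ∉ P.asIdeal ^ 2 ∧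
      ∀ P' : HeightOneSpectrum R, P' ≠ P → d ∈ P'.asIdeal → P' ∈ B) := by
    intro P
    by_cases h : P ∈ T
    · obtain ⟨d, h1, h2, h3⟩ := hB P fun h4 => hTB' P h (hB0 h4)
      exact ⟨d, fun _ => ⟨h1, h2, fun P' hP' hd => hB0 (h3 P' hP' hd)⟩⟩
    · exact ⟨0, fun h' => absurd h' h⟩
  choose δ hδ using hd'
  have hδ0 : ∀ P ∈ T, δ P ≠ 0 := fun P hP h0 => (hδ P hP).2.1 (by
    rw [h0]
    exact Ideal.zero_mem _)
  have ho' : ∀ P : HeightOneSpectrum R, ∃ o : ℕ, P ∈ T → Exa O π o (δ P) := by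
    intro P
    by_cases h : P ∈ T
    · obtain ⟨o, h1, h2, -⟩ := hD (δ P) (hδ0 P h)
      exact ⟨o, fun _ => ⟨hδ0 P h, h1, h2⟩⟩
    · exact ⟨0, fun h' => absurd h' h⟩
  choose o ho using ho'
  refine ⟨∑ P ∈ T, o P + n * (n + 1), fun S hS => ?_⟩
  have hle : ∑ P ∈ S, o P ≤ ∑ P ∈ T, o P := Finset.sum_le_sum_of_subset hS
  obtain ⟨k, hk⟩ : ∃ k, k = ∑ P ∈ T, o P + n * (n + 1) - ∑ P ∈ S, o P := ⟨_, rfl⟩
  have hkn : n * (n + 1) ≤ k := by omega
  have hqr := Nat.div_add_mod k n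
  have hr : k % n < n := Nat.mod_lt _ (by omega)
  have hq : n + 1 ≤ k / n := (Nat.le_div_iff_mul_le (by omega)).2 (by rw [mul_comm]; exact hkn)
  obtain ⟨q, hqd⟩ : ∃ q, q = k / n := ⟨_, rfl⟩
  obtain ⟨r, hrd⟩ : ∃ r, r = k % n := ⟨_, rfl⟩
  rw [← hqd, ← hrd] at hqr
  rw [← hrd] at hr
  rw [← hqd] at hq
  have hsum : (q - r) * n + r * (n + 1) = k := by
    have h1 : (q - r) * n + r * (n + 1) = (q - r + r) * n + r := by ring
    rw [h1, Nat.sub_add_cancel (by omega), ← hqr, mul_comm]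
  have hex : Exa O π (∑ P ∈ T, o P + n * (n + 1)) ((∏ P ∈ S, δ P) * (b₁ ^ (q - r) * b₂ ^ r)) := by
    have h1 := exa_mul (exa_prod o δ S fun P hP => ho P (hS hP))
      (exa_mul (exa_pow hb₁ (q - r)) (exa_pow hb₂ r))
    rw [hsum, hk] at h1
    have h2 : ∑ P ∈ S, o P + (∑ P ∈ T, o P + n * (n + 1) - ∑ P ∈ S, o P) =
        ∑ P ∈ T, o P + n * (n + 1) := by omega
    rwa [h2] at h1
  have hnb : ∀ P : HeightOneSpectrum R, P ∉ B → b₁ ^ (q - r) * b₂ ^ r ∉ P.asIdeal := by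
    intro P hP h
    have hPp := P.isPrime
    rcases hPp.mem_or_mem h with h1 | h1
    · exact hP (hB1 P (hPp.mem_of_pow_mem _ h1))
    · exact hP (hB2 P (hPp.mem_of_pow_mem _ h1))
  refine ⟨_, hex, hex.1, ?_, ?_, ?_⟩
  · intro P hP
    have hPp := P.isPrime
    have hPB := hTB' P (hS hP)
    have hrest : (∏ P'' ∈ S.erase P, δ P'') ∉ P.asIdeal := by
      intro h
      obtain ⟨P'', hP'', h2⟩ := (Ideal.IsPrime.prod_mem_iff).1 h
      rw [Finset.mem_erase] at hP''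
      exact hPB ((hδ P'' (hS hP''.2)).2.2 P (Ne.symm hP''.1) h2)
    rw [← Finset.mul_prod_erase S δ hP, mul_assoc]
    have hPd := hδ P (hS hP)
    refine ⟨Ideal.mul_mem_right _ _ hPd.1, fun h => ?_⟩
    rw [mul_comm] at h
    rcases Ideal.IsPrime.mul_mem_pow P.asIdeal h with h4 | h4
    · rcases hPp.mem_or_mem h4 with h5 | h5
      · exact hrest h5
      · exact hnb P hPB h5
    · exact hPd.2.1 h4
  · intro P hP hPS h
    have hPp := P.isPrime
    rcases hPp.mem_or_mem h with h1 | h1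
    · obtain ⟨P'', hP'', h2⟩ := (Ideal.IsPrime.prod_mem_iff).1 h1
      have hne : P ≠ P'' := fun h5 => hPS (h5 ▸ hP'')
      exact hTB' P hP ((hδ P'' (hS hP'')).2.2 P hne h2)
    · exact hnb P (hTB' P hP) h1
  · intro P hP hP' h
    have hPp := P.isPrime
    rcases hPp.mem_or_mem h with h1 | h1
    · obtain ⟨P'', hP'', h2⟩ := (Ideal.IsPrime.prod_mem_iff).1 h1
      have hne : P ≠ P'' := fun h5 => hP (h5 ▸ hS hP'')
      exact hP' ((hδ P'' (hS hP'')).2.2 P hne h2)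
    · exact hnb P hP' h1

end Pool.T1P
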