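import Pool.Agent.H29.T1.ZS

/-!
# T1P, module SCS: singular points and scaling of the roots
-/

set_option autoImplicit false

namespace Pool.T1P

open Polynomial Matrix Pool.HYP Pool.TOW Pool.AVS IsDedekindDomain Pool.T1

section

variable {R : Type} [CommRing R]

theorem zer_iff (I : Ideal R) (p : R[X]) : Zer I p ↔ p ∈ Ideal.map C I :=
  Ideal.mem_map_C_iff.symm

theorem zer_comp {I : Ideal R} {p : R[X]} (h : Zer I p) (d : R) : Zer I (p.comp (C d * X)) := by
  intro i
  rw [comp_C_mul_X_coeff]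
  exact I.mul_mem_right _ (h i)

/-- Scaling of the roots by an inverse, up to a constant. -/
theorem comp_eq {I : Ideal R} (p : R[X]) {d e : R} (h : e * d - 1 ∈ I) :
    Zer I (p.comp (C d * X) - C (d ^ p.natDegree) * p.scaleRoots e) := by
  have hde : ∀ k : ℕ, (e * d) ^ k - 1 ∈ I := by
    intro k
    obtain ⟨w, hw⟩ := sub_one_dvd_pow_sub_one (e * d) k
    rw [hw]
    exact I.mul_mem_right _ h
  intro i
  rw [coeff_sub, comp_C_mul_X_coeff, coeff_C_mul, coeff_scaleRoots]
  rcases le_or_gt i p.natDegree with hi | hi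
  · have h1 : p.coeff i * d ^ i - d ^ p.natDegree * (p.coeff i * e ^ (p.natDegree - i)) =
        -((e * d) ^ (p.natDegree - i) - 1) * (p.coeff i * d ^ i) := by
      have h2 : d ^ p.natDegree = d ^ (p.natDegree - i) * d ^ i := by
        rw [← pow_add]
        congr 1
        omega
      rw [h2, mul_pow]
      ring
    rw [h1]
    exact I.mul_mem_right _ (I.neg_mem (hde _))
  · rw [coeff_eq_zero_of_natDegree_lt hi]
    simp

end

/-- **SCS.** -/
theorem scs (hIRS : ZIRSStmt) {R : Type} [CommRing R] [IsDedekindDomain R]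
    (P : HeightOneSpectrum R) (f : R[X]) (d : R) (hf : f.Monic) (hd : d ∉ P.asIdeal)
    (h : Sing P.asIdeal (f.scaleRoots d)) : Sing P.asIdeal f := by
  obtain ⟨γ, a, b, c, hγ, hirr, hb, hc, heq⟩ := h
  have hmax : P.asIdeal.IsMaximal := P.isMaximal
  -- an inverse of d modulo P^2
  obtain ⟨e, he⟩ : ∃ e : R, e * d - 1 ∈ P.asIdeal ^ 2 := by
    have h1 : IsCoprime (Ideal.span {d}) P.asIdeal := by
      rw [Ideal.isCoprime_iff_sup_eq, sup_comm]
      exact hmax.1.2 _ (lt_of_le_of_ne le_sup_left fun h2 => hd (by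
        rw [h2]
        exact Ideal.mem_sup_right (Ideal.mem_span_singleton_self d)))
    have h2 : IsCoprime (Ideal.span {d}) (P.asIdeal ^ 2) := h1.pow_right
    obtain ⟨i, hi, j, hj, hij⟩ := Ideal.isCoprime_iff_exists.1 h2
    obtain ⟨e, rfl⟩ := Ideal.mem_span_singleton'.1 hi
    refine ⟨e, ?_⟩
    have h3 : e * d - 1 = -j := by rw [← hij]; ring
    rw [h3]
    exact (P.asIdeal ^ 2).neg_mem hj
  have he1 : e ∉ P.asIdeal := fun h1 => by
    have h2 : e * d - 1 ∈ P.asIdeal := Ideal.pow_le_self (by norm_num) he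
    have h3 : (1 : R) ∈ P.asIdeal := by
      have h4 := P.asIdeal.sub_mem (P.asIdeal.mul_mem_right d h1) h2
      rwa [sub_sub_cancel] at h4
    exact hmax.ne_top ((Ideal.eq_top_iff_one _).2 h3)
  obtain ⟨N, hN⟩ : ∃ N, N = f.natDegree := ⟨_, rfl⟩
  obtain ⟨n, hn⟩ : ∃ n, n = γ.natDegree := ⟨_, rfl⟩
  -- the identity
  have hid : C (d ^ N) * f = (f.scaleRoots d).comp (C d * X) := by
    refine Polynomial.ext fun i => ?_
    rw [comp_C_mul_X_coeff, coeff_C_mul, coeff_scaleRoots]
    rcases le_or_gt i f.natDegree with hi | hi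
    · have h2 : d ^ N = d ^ (f.natDegree - i) * d ^ i := by
        rw [← pow_add, hN]
        congr 1
        omega
      rw [h2]
      ring
    · rw [coeff_eq_zero_of_natDegree_lt hi]
      simp
  obtain ⟨γ', hγ'⟩ : ∃ γ', γ' = γ.scaleRoots e := ⟨_, rfl⟩
  obtain ⟨z, hz⟩ : ∃ z, z = γ.comp (C d * X) - C (d ^ n) * γ' := ⟨_, rfl⟩
  have hzZ : Zer (P.asIdeal ^ 2) z := by
    rw [hz, hγ', hn]
    exact comp_eq γ he
  have hγm : γ'.Monic := by
    rw [hγ']
    exact (monic_scaleRoots_iff e).2 hγ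
  have hirr' : Irreducible (md P.asIdeal γ') := by
    let _ : Field (R ⧸ P.asIdeal) := Ideal.Quotient.field P.asIdeal
    rcases Nat.lt_or_ge γ.natDegree 2 with h2 | h2
    · have h3 : 0 < (md P.asIdeal γ).natDegree := hirr.natDegree_pos
      have h4 : (md P.asIdeal γ).natDegree = γ.natDegree := hγ.natDegree_map _
      have h5 : (md P.asIdeal γ').natDegree = 1 := by
        have h6 : (md P.asIdeal γ').natDegree = γ'.natDegree := hγm.natDegree_map _
        rw [h6, hγ', natDegree_scaleRoots]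
        omega
      exact Polynomial.irreducible_of_degree_eq_one (by
        rw [degree_eq_natDegree (Polynomial.Monic.ne_zero (hγm.map _)), h5]
        rfl)
    · rw [hγ']
      exact (hIRS R P e γ hγ h2).2 he1 hirr
  have hmain : C (d ^ N) * f = γ' ^ 2 * (C (d ^ n) ^ 2 * a.comp (C d * X)) +
      γ' * (C (d ^ n) * b.comp (C d * X)) +
      (z * (2 * (C (d ^ n) * γ') * a.comp (C d * X) + z * a.comp (C d * X) +
        b.comp (C d * X)) + c.comp (C d * X)) := by
    rw [hid, heq, add_comp, add_comp, mul_comp, mul_comp, pow_comp]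
    have h1 : γ.comp (C d * X) = C (d ^ n) * γ' + z := by rw [hz]; ring
    rw [h1]
    ring
  have heN : e ^ N * d ^ N - 1 ∈ P.asIdeal ^ 2 := by
    rw [← mul_pow]
    obtain ⟨w, hw⟩ := sub_one_dvd_pow_sub_one (e * d) N
    rw [hw]
    exact Ideal.mul_mem_right _ _ he
  refine ⟨γ', C (e ^ N) * (C (d ^ n) ^ 2 * a.comp (C d * X)),
    C (e ^ N) * (C (d ^ n) * b.comp (C d * X)),
    C (e ^ N) * (z * (2 * (C (d ^ n) * γ') * a.comp (C d * X) + z * a.comp (C d * X) +
        b.comp (C d * X)) + c.comp (C d * X)) - C (e ^ N * d ^ N - 1) * f, hγm, hirr', ?_, ?_, ?_⟩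
  · rw [zer_iff]
    exact Ideal.mul_mem_left _ _ (Ideal.mul_mem_left _ _ ((zer_iff _ _).1 (zer_comp hb d)))
  · rw [zer_iff]
    refine Ideal.sub_mem _ (Ideal.mul_mem_left _ _ (Ideal.add_mem _
      (Ideal.mul_mem_right _ _ ((zer_iff _ _).1 hzZ)) ((zer_iff _ _).1 (zer_comp hc d)))) ?_
    exact Ideal.mul_mem_right _ _ (Ideal.mem_map_of_mem _ heN)
  · have h1 : f = C (e ^ N) * (C (d ^ N) * f) - C (e ^ N * d ^ N - 1) * f := by
      rw [C_sub, C_mul, C_1]
      ring
    refine h1.trans ?_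
    rw [hmain]
    ring

end Pool.T1P
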