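import Pool.Agent.H29.T1.ZPOS
import Pool.Agent.H44.T1.ZIRS
import Pool.Agent.H96.T1P.SCS
import Pool.Agent.H96.T1P.DSX

/-!
# T1P, module PZX: the positive proportion theorem with more information

The good polynomials are irreducible at infinity, and they are singular only above a fixed finite
set of primes, where they are congruent to a power of a linear polynomial.
-/

set_option autoImplicit false

namespace Pool.T1P

open Polynomial Matrix Pool.HYP Pool.TOW Pool.AVS IsDedekindDomain Pool.T1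

section Defs

variable {R : Type} [CommRing R] [IsDedekindDomain R] {K : Type} [Field K] [Algebra R K]

/-- Irreducible at infinity. -/
def IrT (O : ValuationSubring K) (π : K) (h : ℕ) (f : R[X]) : Prop :=
  IrrV O ((fk K f).scaleRoots (π ^ h))

/-- Singular only above the primes of `A`, where `f` is congruent to a power of a linear
polynomial. -/
def SgC (A : Finset (HeightOneSpectrum R)) (f : R[X]) : Prop :=
  ∀ P : HeightOneSpectrum R, Sing P.asIdeal f →
    P ∈ A ∧ ∃ c : R, Zer P.asIdeal (f - (X - C c) ^ f.natDegree)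

/-- The conclusion: a positive proportion of the polynomials satisfies `Y`. -/
def PosX (O : ValuationSubring K) (π : K) (g : ℕ) (A : Finset (HeightOneSpectrum R))
    (Y : R[X] → Prop) : Prop :=
  ∃ δ : ℝ, 0 < δ ∧ ∃ h0 : ℕ, ∀ h : ℕ, h0 ≤ h →
    (All R O π g h).Finite ∧
    δ * (All R O π g h).ncard ≤
      {f ∈ AllS R O π g h | Irreducible (fk K f) ∧ IrT O π h f ∧ SgC A f ∧ Y f}.ncard

end Defs

section Top

variable {R : Type} [CommRing R] [IsDedekindDomain R] {K : Type} [Field K] [Algebra R K]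
  [IsFractionRing R K] {O : ValuationSubring K} {π : K}

/-- The reduction at infinity. -/
theorem top_irT {g h : ℕ} {f : R[X]} (hf : f ∈ All R O π g h)
    {p : (IsLocalRing.ResidueField O)[X]} (hdeg : p.natDegree = 2 * g + 1)
    (hirr : Irreducible p) (ht : Top π g h p f) : IrT O π h f := by
  obtain ⟨hfm, hfd, hc⟩ := hf
  have hfkd : (fk K f).natDegree = 2 * g + 1 := by rw [hfm.natDegree_map, hfd]
  have hco : ∀ i ≤ 2 * g + 1, ((fk K f).scaleRoots (π ^ h)).coeff (2 * g + 1 - i) =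
      algebraMap R K (f.coeff (2 * g + 1 - i)) * π ^ (i * h) := by
    intro i hi
    have h3 : 2 * g + 1 - (2 * g + 1 - i) = i := by omega
    rw [coeff_scaleRoots, hfkd, h3, coeff_map, ← pow_mul, mul_comm h i]
  have hco' : ∀ j, 2 * g + 1 < j → ((fk K f).scaleRoots (π ^ h)).coeff j = 0 := by
    intro j hj
    exact coeff_eq_zero_of_natDegree_lt (by rw [natDegree_scaleRoots, hfkd]; exact hj)
  obtain ⟨q, hq⟩ : ∃ q : O[X], q.map (algebraMap O K) = (fk K f).scaleRoots (π ^ h) := by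
    refine (Polynomial.mem_lifts _).1 ((Polynomial.lifts_iff_coeff_lifts _).2 fun j => ?_)
    rcases le_or_gt j (2 * g + 1) with hj | hj
    · have h1 := hco (2 * g + 1 - j) (Nat.sub_le _ _)
      rw [Nat.sub_sub_self hj] at h1
      have h2 := hc (2 * g + 1 - j) (Nat.sub_le _ _)
      rw [Nat.sub_sub_self hj] at h2
      change algebraMap R K _ * π ^ (((2 * g + 1 - j) * h : ℕ) : ℤ) ∈ O at h2
      rw [zpow_natCast, ← h1] at h2
      exact ⟨⟨_, h2⟩, rfl⟩
    · exact ⟨0, by rw [map_zero, hco' j hj]⟩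
  refine ⟨q, hq, ?_⟩
  have hqp : q.map (IsLocalRing.residue O) = p := by
    refine Polynomial.ext fun j => ?_
    rw [coeff_map]
    have hqj : ((q.coeff j : O) : K) = ((fk K f).scaleRoots (π ^ h)).coeff j := by
      rw [← hq, coeff_map]
      rfl
    rcases le_or_gt j (2 * g + 1) with hj | hj
    · have h1 := ht (2 * g + 1 - j) (Nat.sub_le _ _) (q.coeff j) (by
        rw [hqj, ← hco (2 * g + 1 - j) (Nat.sub_le _ _), Nat.sub_sub_self hj])
      rwa [Nat.sub_sub_self hj] at h1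
    · have h1 : q.coeff j = 0 := Subtype.ext (by rw [hqj, hco' j hj]; rfl)
      rw [h1, map_zero, coeff_eq_zero_of_natDegree_lt (by rw [hdeg]; exact hj)]
  rw [hqp]
  exact hirr

/-- Scaling of the roots by a unit of `w`. -/
theorem irrV_scale {w : ValuationSubring K} {F : K[X]} (hF : F.Monic) (hi : IrrV w F) {u : K}
    (hu : u ≠ 0) (h1 : u ∈ w) (h2 : u⁻¹ ∈ w) : IrrV w (F.scaleRoots u) := by
  obtain ⟨q, hq, hirr⟩ := hi
  have hqm : q.Monic := by
    have : (q.map (algebraMap w K)).Monic := by rw [hq]; exact hF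
    exact Polynomial.monic_of_injective Subtype.val_injective this
  refine ⟨q.scaleRoots ⟨u, h1⟩, ?_, ?_⟩
  · rw [map_scaleRoots q _ _ (by rw [hqm.leadingCoeff, map_one]; exact one_ne_zero), hq]
    rfl
  · rw [map_scaleRoots q _ _ (by rw [hqm.leadingCoeff, map_one]; exact one_ne_zero)]
    refine Pool.TOW.UD.irr_scaleRoots (hqm.map _) ?_ hirr
    rw [Ne, IsLocalRing.residue_eq_zero_iff, IsLocalRing.mem_maximalIdeal, mem_nonunits_iff,
      not_not]
    exact IsUnit.of_mul_eq_one ⟨_, h2⟩ (Subtype.ext (mul_inv_cancel₀ hu))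

/-- Twisting keeps irreducibility at infinity. -/
theorem irT_scale (H : GR R O π) {g h E : ℕ} {D : Dat R O} (hD : D.Ok g) {f : R[X]}
    (hf : f ∈ Fam π g D h) {d : R} (hd : Exa O π E d) :
    IrT O π (h + E) (f.scaleRoots d) := by
  obtain ⟨hd0, hd1, hd2⟩ := hd
  obtain ⟨-, -, -, hm, hdeg, hirr⟩ := hD
  have hdK : algebraMap R K d ≠ 0 := fun h0 =>
    hd0 (IsFractionRing.injective R K (by rw [h0, map_zero]))
  have hne : algebraMap R K d * π ^ E ≠ 0 := mul_ne_zero hdK (pow_ne_zero _ H.pi_ne)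
  have h1 : (fk K (f.scaleRoots d)).scaleRoots (π ^ (h + E)) =
      ((fk K f).scaleRoots (π ^ h)).scaleRoots (algebraMap R K d * π ^ E) := by
    rw [fk, map_scaleRoots f d _ (by rw [hf.1.1.leadingCoeff, map_one]; exact one_ne_zero),
      ← scaleRoots_mul, ← scaleRoots_mul, pow_add]
    congr 1
    ring
  show IrrV O _
  rw [h1]
  exact irrV_scale ((monic_scaleRoots_iff _).2 (hf.1.1.map _))
    (top_irT hf.1 hdeg hirr hf.2.1) hne hd1 hd2

/-- Singular points of the twists of the smooth polynomials. -/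
theorem sgC_scale (hIRS : ZIRSStmt) {g h : ℕ} {D : Dat R O} {f : R[X]}
    (hf : f ∈ Fam π g D h) (hsm : Smooth f) {B S : Finset (HeightOneSpectrum R)} {d : R}
    (hd : Twi D.T B S d) [DecidableEq (HeightOneSpectrum R)] : SgC (D.T ∪ B) (f.scaleRoots d) := by
  intro P hP
  have hfm : f.Monic := hf.1.1
  have hdP : d ∈ P.asIdeal := by
    by_contra h0
    exact hsm P (scs hIRS P f d hfm h0 hP)
  refine ⟨?_, 0, ?_⟩
  · by_contra h0
    rw [Finset.mem_union, not_or] at h0
    exact hd.2.2.2 P h0.1 h0.2 hdP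
  · intro i
    rw [natDegree_scaleRoots, C_0, sub_zero, coeff_sub, coeff_scaleRoots, coeff_X_pow]
    split_ifs with h1
    · rw [h1, Nat.sub_self, pow_zero, mul_one, hfm.coeff_natDegree, sub_self]
      exact P.asIdeal.zero_mem
    · rw [sub_zero]
      rcases lt_trichotomy i f.natDegree with h2 | h2 | h2
      · refine P.asIdeal.mul_mem_left _ (P.asIdeal.pow_mem_of_mem hdP _ (by omega))
      · exact absurd h2 h1
      · rw [coeff_eq_zero_of_natDegree_lt h2, zero_mul]
        exact P.asIdeal.zero_mem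

end Top

/-- **PZX.** -/
theorem pzx_core {R : Type} [CommRing R] [IsDedekindDomain R] {K : Type} [Field K] [Algebra R K]
    [IsFractionRing R K] {O : ValuationSubring K} {π : K} (H : GR R O π)
    (hCLS : ZCLSStmt) (hEA : EXDAStmt) (hEB : ZEXDStmt) (hALL : ALLKStmt)
    (hFAM : FAMKStmt) (hIRR : IRRKStmt) (hTWF : TWFKStmt) (hTWJ : TWJKStmt) (hGRO : GROWStmt)
    (hBAD : BADKStmt) (hFL : FAMLKStmt) (hRAM : ZRAMStmt) (hSPL : ZSPLStmt) (hIRS : ZIRSStmt)
    (hU : CntU R O π) (hL : ∃ c : ℕ, CntL R O π c) (hX : ∃ C : ℕ, CntX R O π C)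
    (hC : ∃ C : ℕ, CntC R O π C) (hD0 : CntD R O π)
    (hfinP : ∀ b : ℕ, {P : HeightOneSpectrum R | Nm P ≤ b}.Finite)
    (g : ℕ) (hg : 1 ≤ g) (hKey : ∃ C : ℤ, KeyC R O π g C)
    (Ram A : Finset (HeightOneSpectrum R)) (hden : DenP O π g A)
    (E₀ : Type) [Field E₀] [Algebra K E₀] (hf0 : FiniteDimensional K E₀) (hg0 : IsGalois K E₀)
    (Y : Finset (HeightOneSpectrum R) → R[X] → Prop) (W : R[X] → Prop)
    (hYW : ∀ (T : Finset (HeightOneSpectrum R)) (f : R[X]), f.Monic →
      f.natDegree = 2 * g + 1 → (∀ P ∈ T, SplV E₀ (vP K P)) →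
      (∀ P : HeightOneSpectrum R, UnrV E₀ (vP K P) ∨ Irreducible (md P.asIdeal f)) →
      Y T f → W f)
    (hone : ∀ (D : Dat R O) (h : ℕ), D.Ok g → Ram ⊆ D.T' → ∀ f ∈ Fam π g D h, Smooth f →
      ¬ Bad K D.T f → ∃ S ⊆ D.T, ∀ d : R, Twi D.T D.T' S d → Y D.T (f.scaleRoots d)) :
    ∃ T A : Finset (HeightOneSpectrum R), (∀ P ∈ T, SplV E₀ (vP K P)) ∧
      PosX O π g A fun f => W f ∧ Y T f := by
  classical
  have : FaithfulSMul R K := inferInstance
  obtain ⟨Z, hZ⟩ := hRAM R K O π H E₀ hf0 hg0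
  obtain ⟨B₀, hBZ₀, hB₀⟩ := hCLS R K O π H Z
  obtain ⟨B, -, hBZ, hdsx⟩ := dsx H hU hX hD0 Z B₀ hBZ₀ hB₀
  set T' : Finset (HeightOneSpectrum R) := A ∪ (Ram ∪ (B ∪ Z)) with hT'
  obtain ⟨D₀, hD₀, hT0, hT'0⟩ := hEA R K O π H g T' hg
  obtain ⟨cL, hcL⟩ := hL
  have hFamL : ∃ c : ℕ, FamL R O π g c := ⟨_, hFL R K O π H hU hX cL g hcL hg⟩
  obtain ⟨k₀, b, hbad⟩ := hBAD R K O π H hU ⟨cL, hcL⟩ hC g hg hKey hFamL
    (fun D h hD f hf => (hIRR R K O π H g D h hg hD f hf).1) T'
  obtain ⟨D, hD, hcard, hb, hDT', -, -⟩ := hEB R K O π H {P | SplV E₀ (vP K P)}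
    (fun A => by
      obtain ⟨P, h1, h2⟩ := hSPL R K O π H E₀ hf0 hg0 A
      exact ⟨P, h2, h1⟩) hfinP g D₀ k₀
    (b + 2 * (2 * g + 1) * k₀) hg hD₀ hT0
  have hDT : D.T' = T' := hDT'.trans hT'0
  obtain ⟨h₁, h1⟩ := hbad D hD hDT hcard.ge (fun P hP => by
    have := (hb P hP).1
    rw [hcard]
    constructor <;> omega)
  obtain ⟨h₂, h2⟩ := hden D hD (by rw [hDT, hT']; exact Finset.subset_union_left)
  have hBT : B ⊆ D.T' := by
    rw [hDT, hT']
    exact fun x hx => Finset.mem_union_right _ (Finset.mem_union_right _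
      (Finset.mem_union_left _ hx))
  have hZT : Z ⊆ D.T' := by
    rw [hDT, hT']
    exact fun x hx => Finset.mem_union_right _ (Finset.mem_union_right _
      (Finset.mem_union_right _ hx))
  have hRT : Ram ⊆ D.T' := by
    rw [hDT, hT']
    exact fun x hx => Finset.mem_union_right _ (Finset.mem_union_left _ hx)
  have hTB : Disjoint D.T B := hD.1.mono_right hBT
  obtain ⟨E, hE⟩ := hdsx D.T hTB
  choose! dS hdS using hE
  have hdT : ∀ S ⊆ D.T, Twi D.T D.T' S (dS S) := fun S hS => by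
    obtain ⟨h3, h4, h5, h6⟩ := (hdS S hS).2
    exact ⟨h3, h4, h5, fun P hP hP' => h6 P hP fun h => hP' (hBT h)⟩
  obtain ⟨h₃, h3⟩ := hFAM R K O π H (fun m => (hU m).1) hX g D hg hD
  obtain ⟨c, hc⟩ := hGRO R K O π H hU ⟨cL, hcL⟩ g E
  set W' : ℕ := (∏ P ∈ D.T, Nm P ^ (2 * g + 1)) * (∏ P ∈ D.T', Nm P ^ (2 * g + 1)) *
    qq O ^ (2 * g + 1) with hW
  refine ⟨D.T, D.T ∪ B, fun P hP => (hb P hP).2,
    ((c * (W' * (2 * D.T.powerset.card)) + 1 : ℕ) : ℝ)⁻¹,
    by positivity, max h₁ (max h₂ h₃) + E, fun h hh => ?_⟩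
  obtain ⟨h', rfl⟩ : ∃ h', h = h' + E := ⟨h - E, by omega⟩
  have hh1 : h₁ ≤ h' := by omega
  have hh2 : h₂ ≤ h' := by omega
  have hh3 : h₃ ≤ h' := by omega
  have hfinA : ∀ n, (All R O π g n).Finite := fun n =>
    (hALL R K O π H (fun m => (hU m).1) g n).1
  have hfinS : (AllS R O π g (h' + E)).Finite := (hfinA _).subset fun f hf => hf.1
  set Bs : Set R[X] := {f ∈ AllS R O π g (h' + E) | Irreducible (fk K f) ∧
    IrT O π (h' + E) f ∧ SgC (D.T ∪ B) f ∧ W f ∧ Y D.T f} with hBs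
  have hBfin : Bs.Finite := hfinS.subset fun f hf => hf.1
  have hAfin : (Fam π g D h').Finite := (hfinA h').subset fun f hf => hf.1
  have hkey : (Fam π g D h').ncard ≤ 2 * D.T.powerset.card * Bs.ncard := by
    refine pigeon (Fam π g D h') hAfin Bs hBfin D.T.powerset
      (fun S f => f.scaleRoots (dS S)) ?_ {f | Bad K D.T f} {f | ¬ Smooth f}
      (h1 h' hh1) (h2 h' hh2) ?_
    · intro S hS
      exact hTWJ R (dS S) (hdS S (Finset.mem_powerset.1 hS)).2.1
    · intro f hf hnb hns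
      have hsm : Smooth f := by
        by_contra hcon
        exact hns hcon
      obtain ⟨S, hS, htow⟩ := hone D h' hD hRT f hf hsm hnb
      obtain ⟨hd1, hd2⟩ := hdS S hS
      have hirr := hIRR R K O π H g D h' hg hD f hf
      have htw : Y D.T (f.scaleRoots (dS S)) := htow _ (hdT S hS)
      have hdm : f.scaleRoots (dS S) |>.Monic := (monic_scaleRoots_iff _).2 hf.1.1
      refine ⟨S, Finset.mem_powerset.2 hS, ?_, ?_, ?_, ?_, ?_, htw⟩
      · refine hTWF R K O π H g h' E f (dS S) ⟨hf.1, hirr.2⟩ hd2.1 ?_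
        show algebraMap R K (dS S) * π ^ (E : ℤ) ∈ O
        rw [zpow_natCast]
        exact hd1.2.1
      · exact irr_scale hd2.1 hf.1.1 hirr.1
      · exact irT_scale H hD hf hd1
      · exact sgC_scale hIRS hf hsm hd2
      · refine hYW D.T _ hdm (by rw [natDegree_scaleRoots]; exact hf.1.2.1)
          (fun P hP => (hb P hP).2) (fun P => ?_) htw
        by_cases hPZ : P ∈ Z
        · right
          have hPT' : P ∈ D.T' := hZT hPZ
          have hPT : P ∉ D.T := fun h => (Finset.disjoint_left.1 hD.1) h hPT'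
          have hPB : P ∉ B := fun h => (Finset.disjoint_left.1 hBZ) h hPZ
          have hρ := hD.2.2.1 P hPT'
          have hirrP : Irreducible (md P.asIdeal f) := by
            have h5 : md P.asIdeal f = md P.asIdeal (D.ρ P) := by
              have h6 := hf.2.2.2 P hPT'
              have h7 : md P.asIdeal (f - D.ρ P) = 0 := by
                ext i
                rw [coeff_map, coeff_zero]
                exact Ideal.Quotient.eq_zero_iff_mem.2 (h6 i)
              have h8 : md P.asIdeal (f - D.ρ P) = md P.asIdeal f - md P.asIdeal (D.ρ P) :=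
                Polynomial.map_sub _
              exact sub_eq_zero.1 (h8.symm.trans h7)
            rw [h5]
            exact hρ.2.2
          exact (hIRS R P (dS S) f hf.1.1 (by rw [hf.1.2.1]; omega)).2 (hd2.2.2.2 P hPT hPB)
            hirrP
        · exact Or.inl (hZ P hPZ)
  have hFW := h3 h' hh3
  have hFW' : (Fam π g D h').ncard * W' = (All R O π g h').ncard := by
    rw [← hFW, hW]
    ring
  refine ⟨hfinA _, ?_⟩
  have hS1 : (All R O π g (h' + E)).ncard ≤ c * (W' * (2 * D.T.powerset.card)) * Bs.ncard := by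
    calc (All R O π g (h' + E)).ncard ≤ c * (All R O π g h').ncard := hc h'
      _ = c * ((Fam π g D h').ncard * W') := by rw [hFW']
      _ ≤ c * ((2 * D.T.powerset.card * Bs.ncard) * W') :=
          Nat.mul_le_mul_left _ (Nat.mul_le_mul_right _ hkey)
      _ = _ := by ring
  have hS2 : ((All R O π g (h' + E)).ncard : ℝ) ≤
      ((c * (W' * (2 * D.T.powerset.card)) + 1 : ℕ) : ℝ) * (Bs.ncard : ℝ) := by
    have : (All R O π g (h' + E)).ncard ≤
        (c * (W' * (2 * D.T.powerset.card)) + 1) * Bs.ncard := by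
      refine hS1.trans (Nat.mul_le_mul_right _ (Nat.le_succ _))
    exact_mod_cast this
  have hpos : (0 : ℝ) < ((c * (W' * (2 * D.T.powerset.card)) + 1 : ℕ) : ℝ) := by positivity
  rw [inv_mul_le_iff₀ hpos]
  exact hS2

end Pool.T1P
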